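import Mathlib.Analysis.Matrix.Spectrum
import Mathlib.LinearAlgebra.Matrix.Rank
import Mathlib.Algebra.Order.Chebyshev

/-!
# The trace of a real symmetric matrix against its rank
-/

open Matrix

namespace Pool.Agent.H84.Fr

variable {n : Type*} [Fintype n] [DecidableEq n]

/-- The trace of the square of a real symmetric matrix is the sum of the squares of its eigenvalues. -/
theorem trace_mul_self {P : Matrix n n ℝ} (hP : P.IsHermitian) :
    (P * P).trace = ∑ i, hP.eigenvalues i ^ 2 := by
  have h1 := hP.spectral_theorem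
  set D : Matrix n n ℝ := diagonal (RCLike.ofReal ∘ hP.eigenvalues) with hD
  have h2 : P * P = Unitary.conjStarAlgAut ℝ _ hP.eigenvectorUnitary (D * D) := by
    rw [map_mul, ← h1]
  rw [h2, Unitary.conjStarAlgAut_apply, Matrix.trace_mul_cycle]
  simp [hD, Matrix.diagonal_mul_diagonal, Matrix.trace_diagonal, sq]

/-- `(tr P) ^ 2 ≤ rank P * tr (P ^ 2)` for a real symmetric matrix. -/
theorem trace_sq_le_rank {P : Matrix n n ℝ} (hP : P.IsHermitian) :
    P.trace ^ 2 ≤ P.rank * (P * P).trace := by
  classical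
  rw [trace_mul_self hP, hP.trace_eq_sum_eigenvalues, hP.rank_eq_card_non_zero_eigs]
  simp only [RCLike.ofReal_real_eq_id, id_eq]
  have h1 : ∑ i, hP.eigenvalues i = ∑ i ∈ Finset.univ.filter (fun i => hP.eigenvalues i ≠ 0),
      hP.eigenvalues i := by
    rw [Finset.sum_filter_ne_zero]
  have h2 : (Fintype.card {i // hP.eigenvalues i ≠ 0} : ℝ) =
      ((Finset.univ.filter (fun i => hP.eigenvalues i ≠ 0)).card : ℝ) := by
    rw [Fintype.card_subtype]
  rw [h1, h2]
  refine le_trans sq_sum_le_card_mul_sum_sq ?_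
  refine mul_le_mul_of_nonneg_left ?_ (by positivity)
  exact Finset.sum_le_sum_of_subset_of_nonneg (Finset.filter_subset _ _)
    fun i _ _ => sq_nonneg _

/-- The trace of `P * P` for symmetric `P` is the sum of the squares of the entries. -/
theorem trace_mul_self_eq_sum {P : Matrix n n ℝ} (hP : P.IsHermitian) :
    (P * P).trace = ∑ i, ∑ j, P i j ^ 2 := by
  simp only [Matrix.trace, Matrix.diag_apply, Matrix.mul_apply]
  refine Finset.sum_congr rfl fun i _ => Finset.sum_congr rfl fun j _ => ?_
  have : P j i = P i j := by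
    have := hP.apply i j
    simpa using this
  rw [this, sq]

/-- A symmetric matrix `c - ∑ m, (W i m * B j m + W j m * B i m)` has rank at most `2 r + 1`. -/
theorem rank_le_of_form {r : Type*} [Fintype r] (c : ℝ) (W B : n → r → ℝ) (P : Matrix n n ℝ)
    (hP : ∀ i j, P i j = c - ∑ m, (W i m * B j m + W j m * B i m)) :
    P.rank ≤ 2 * Fintype.card r + 1 := by
  classical
  let L : Matrix n (Unit ⊕ (r ⊕ r)) ℝ := fun i k =>
    match k with
    | Sum.inl _ => c
    | Sum.inr (Sum.inl m) => - W i m
    | Sum.inr (Sum.inr m) => - B i m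
  let M : Matrix (Unit ⊕ (r ⊕ r)) n ℝ := fun k j =>
    match k with
    | Sum.inl _ => 1
    | Sum.inr (Sum.inl m) => B j m
    | Sum.inr (Sum.inr m) => W j m
  have h : P = L * M := by
    ext i j
    rw [hP, Matrix.mul_apply, Fintype.sum_sum_type, Fintype.sum_sum_type]
    simp only [L, M, Finset.univ_unique, Finset.sum_singleton, mul_one, Finset.sum_add_distrib]
    have : ∑ x, -B i x * W j x = - ∑ x, W j x * B i x := by
      rw [← Finset.sum_neg_distrib]
      exact Finset.sum_congr rfl fun x _ => by ring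
    rw [this]
    have : ∑ x, -W i x * B j x = - ∑ x, W i x * B j x := by
      rw [← Finset.sum_neg_distrib]
      exact Finset.sum_congr rfl fun x _ => by ring
    rw [this]
    ring
  rw [h]
  refine le_trans (Matrix.rank_mul_le_left _ _) ?_
  refine le_trans (Matrix.rank_le_card_width _) ?_
  simp [Fintype.card_sum]
  omega

/-- The form used for lattices: if `P i j = c - ∑ m, (W i m * B j m + W j m * B i m)` lies in
`[0, c]` and is `c` on the diagonal, then `|n| ^ 2 c ≤ (2 r + 1) ∑ P i j`. -/
theorem main_ineq {r : Type*} [Fintype r] (c : ℝ) (hc : 0 < c) (W B : n → r → ℝ)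
    (P : Matrix n n ℝ) (hP : ∀ i j, P i j = c - ∑ m, (W i m * B j m + W j m * B i m))
    (h0 : ∀ i j, 0 ≤ P i j) (h1 : ∀ i j, P i j ≤ c) (hd : ∀ i, P i i = c) :
    (Fintype.card n : ℝ) ^ 2 * c ≤ (2 * Fintype.card r + 1) * ∑ i, ∑ j, P i j := by
  classical
  have hs : P.IsHermitian := by
    ext i j
    simp only [Matrix.conjTranspose_apply, star_trivial]
    rw [hP, hP]
    congr 1
    exact Finset.sum_congr rfl fun m _ => by ring
  have ht : P.trace = Fintype.card n * c := by
    simp [Matrix.trace, hd]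
  have hk := trace_sq_le_rank hs
  rw [ht, trace_mul_self_eq_sum hs] at hk
  have hr : (P.rank : ℝ) ≤ 2 * Fintype.card r + 1 := by
    exact_mod_cast rank_le_of_form c W B P hP
  have hS : ∑ i, ∑ j, P i j ^ 2 ≤ c * ∑ i, ∑ j, P i j := by
    rw [Finset.mul_sum]
    refine Finset.sum_le_sum fun i _ => ?_
    rw [Finset.mul_sum]
    refine Finset.sum_le_sum fun j _ => ?_
    nlinarith [h0 i j, h1 i j]
  have hS0 : 0 ≤ ∑ i, ∑ j, P i j ^ 2 :=
    Finset.sum_nonneg fun i _ => Finset.sum_nonneg fun j _ => sq_nonneg _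
  have h3 : ((Fintype.card n : ℝ) * c) ^ 2 ≤
      (2 * Fintype.card r + 1) * (c * ∑ i, ∑ j, P i j) := by
    refine hk.trans ?_
    refine le_trans (mul_le_mul_of_nonneg_right hr hS0) ?_
    exact mul_le_mul_of_nonneg_left hS (by positivity)
  have h4 : c * ((Fintype.card n : ℝ) ^ 2 * c) ≤
      c * ((2 * Fintype.card r + 1) * ∑ i, ∑ j, P i j) := by
    nlinarith
  exact le_of_mul_le_mul_left h4 hc

end Pool.Agent.H84.Fr
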