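import Mathlib.Analysis.SpecialFunctions.Log.Basic
import Mathlib.Data.Finset.Pi
import Mathlib.Algebra.Order.BigOperators.Group.Finset
import Mathlib.Algebra.BigOperators.Field
import Mathlib.Order.Restriction

/-!
# Chain rule weights of a finite set of functions

For a nonempty finite set `D` of functions there are weights `w ≥ 0` on the coordinates with sum `log |D|` such that for
every set `A` of coordinates the sum of the weights over `A` is at most the logarithm of the number of restrictions
to `A` of the members of `D`.
-/

open Finset

namespace Pool.Agent.H84.Fr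

variable {ι α : Type*} [DecidableEq ι] [DecidableEq α]

/-- The number of restrictions to `A` of the members of `D`. -/
def traces (A : Finset ι) (D : Finset (ι → α)) : ℕ :=
  (D.image (fun x => (fun m : A => x m))).card

theorem traces_pos (A : Finset ι) {D : Finset (ι → α)} (hD : D.Nonempty) : 0 < traces A D :=
  Finset.card_pos.2 (hD.image _)

theorem traces_mono (A : Finset ι) {D E : Finset (ι → α)} (h : D ⊆ E) :
    traces A D ≤ traces A E :=
  Finset.card_le_card (Finset.image_subset_image h)

/-- The slice of `D` where the coordinate `s` is `a`. -/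
def slice (D : Finset (ι → α)) (s : ι) (a : α) : Finset (ι → α) := D.filter (fun x => x s = a)

omit [DecidableEq ι] in
theorem mem_slice {D : Finset (ι → α)} {s : ι} {a : α} {x : ι → α} :
    x ∈ slice D s a ↔ x ∈ D ∧ x s = a := by
  simp [slice]

omit [DecidableEq ι] in
theorem slice_subset (D : Finset (ι → α)) (s : ι) (a : α) : slice D s a ⊆ D :=
  Finset.filter_subset _ _

theorem sum_traces_slice_le (A : Finset ι) (D : Finset (ι → α)) {s : ι} (hs : s ∈ A) :
    ∑ a ∈ D.image (fun x => x s), traces A (slice D s a) ≤ traces A D := by
  classical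
  unfold traces
  rw [← Finset.card_biUnion]
  · refine Finset.card_le_card ?_
    intro z hz
    rw [Finset.mem_biUnion] at hz
    obtain ⟨a, -, hz⟩ := hz
    exact Finset.image_subset_image (slice_subset D s a) hz
  · intro a _ b _ hab
    rw [Function.onFun, Finset.disjoint_left]
    intro z hz hz'
    rw [Finset.mem_image] at hz hz'
    obtain ⟨x, hx, rfl⟩ := hz
    obtain ⟨y, hy, hyx⟩ := hz'
    have h1 := congrFun hyx ⟨s, hs⟩
    simp only at h1
    rw [mem_slice] at hx hy
    exact hab (hx.2.symm.trans (h1.symm.trans hy.2))

omit [DecidableEq ι] in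
theorem sum_div_slice (D : Finset (ι → α)) (s : ι) (g : α → ℝ) :
    ∑ x ∈ D, g (x s) / ((slice D s (x s)).card : ℝ) = ∑ a ∈ D.image (fun x => x s), g a := by
  classical
  rw [← Finset.sum_fiberwise_of_maps_to (g := fun x : ι → α => x s)
    (t := D.image (fun x => x s)) (fun x hx => Finset.mem_image_of_mem _ hx)]
  refine Finset.sum_congr rfl fun a ha => ?_
  have h1 : ∑ x ∈ D.filter (fun x => x s = a), g (x s) / ((slice D s (x s)).card : ℝ) =
      ∑ x ∈ D.filter (fun x => x s = a), g a / ((slice D s a).card : ℝ) := by
    refine Finset.sum_congr rfl fun x hx => ?_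
    rw [(Finset.mem_filter.1 hx).2]
  rw [h1, Finset.sum_const, nsmul_eq_mul]
  have h2 : ((slice D s a).card : ℝ) ≠ 0 := by
    rw [Finset.mem_image] at ha
    obtain ⟨x, hx, rfl⟩ := ha
    have : 0 < (slice D s (x s)).card := Finset.card_pos.2 ⟨x, mem_slice.2 ⟨hx, rfl⟩⟩
    exact_mod_cast this.ne'
  have h3 : (D.filter (fun x => x s = a)).card = (slice D s a).card := rfl
  rw [h3]
  field_simp

/-- The chain rule weights. -/
theorem exists_weights (S : Finset ι) : ∀ D : Finset (ι → α), D.Nonempty →
    (∀ x ∈ D, ∀ y ∈ D, ∀ m ∉ S, x m = y m) →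
    ∃ w : ι → ℝ, (∀ m, 0 ≤ w m) ∧ (∀ m ∉ S, w m = 0) ∧
      ∑ m ∈ S, w m = Real.log D.card ∧
      ∀ A : Finset ι, ∑ m ∈ A, w m ≤ Real.log (traces A D) := by
  classical
  induction S using Finset.induction_on with
  | empty =>
    intro D hD hagree
    have hc : D.card = 1 := by
      rw [Finset.card_eq_one]
      obtain ⟨x, hx⟩ := hD
      refine ⟨x, ?_⟩
      ext y
      rw [Finset.mem_singleton]
      constructor
      · intro hy
        funext m
        exact hagree y hy x hx m (by simp)
      · rintro rfl
        exact hx
    refine ⟨fun _ => 0, fun _ => le_rfl, fun _ _ => rfl, by simp [hc], fun A => ?_⟩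
    simp only [Finset.sum_const_zero]
    exact Real.log_nonneg (by exact_mod_cast traces_pos A hD)
  | insert s S hsS ih =>
    intro D hD hagree
    have key : ∀ a : α, ∃ w : ι → ℝ, (slice D s a).Nonempty →
        ((∀ m, 0 ≤ w m) ∧ (∀ m ∉ S, w m = 0) ∧
          ∑ m ∈ S, w m = Real.log (slice D s a).card ∧
          ∀ A : Finset ι, ∑ m ∈ A, w m ≤ Real.log (traces A (slice D s a))) := by
      intro a
      by_cases ha : (slice D s a).Nonempty
      · obtain ⟨w, hw⟩ := ih (slice D s a) ha (by
          intro x hx y hy m hm
          rw [mem_slice] at hx hy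
          by_cases hms : m = s
          · rw [hms, hx.2, hy.2]
          · exact hagree x hx.1 y hy.1 m (by simp [hms, hm]))
        exact ⟨w, fun _ => hw⟩
      · exact ⟨0, fun h => (ha h).elim⟩
    choose W hW using key
    have hne : ∀ x ∈ D, (slice D s (x s)).Nonempty := fun x hx => ⟨x, mem_slice.2 ⟨hx, rfl⟩⟩
    have hDpos : (0 : ℝ) < D.card := by exact_mod_cast Finset.card_pos.2 hD
    set κ : ℝ := Real.log D.card - (∑ x ∈ D, Real.log (slice D s (x s)).card) / D.card with hκ
    have hκ0 : 0 ≤ κ := by
      rw [hκ, sub_nonneg, div_le_iff₀ hDpos]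
      have : ∑ x ∈ D, Real.log (slice D s (x s)).card ≤ ∑ _x ∈ D, Real.log D.card := by
        refine Finset.sum_le_sum fun x hx => ?_
        refine Real.log_le_log (by exact_mod_cast Finset.card_pos.2 (hne x hx)) ?_
        exact_mod_cast Finset.card_le_card (slice_subset D s (x s))
      rw [Finset.sum_const, nsmul_eq_mul] at this
      linarith [mul_comm (D.card : ℝ) (Real.log D.card)]
    set w : ι → ℝ := fun m => (∑ x ∈ D, W (x s) m) / D.card + if m = s then κ else 0 with hw
    have hsum : ∀ A : Finset ι, ∑ m ∈ A, w m =
        (∑ x ∈ D, ∑ m ∈ A, W (x s) m) / D.card + if s ∈ A then κ else 0 := by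
      intro A
      rw [hw]
      simp only [Finset.sum_add_distrib]
      rw [← Finset.sum_div, Finset.sum_comm]
      congr 1
      rw [Finset.sum_ite_eq']
    refine ⟨w, ?_, ?_, ?_, ?_⟩
    · intro m
      rw [hw]
      refine add_nonneg (div_nonneg (Finset.sum_nonneg fun x hx => (hW _ (hne x hx)).1 m)
        hDpos.le) ?_
      split_ifs
      · exact hκ0
      · exact le_rfl
    · intro m hm
      rw [Finset.mem_insert, not_or] at hm
      rw [hw]
      simp only [hm.1, if_false, add_zero]
      rw [Finset.sum_eq_zero fun x hx => (hW _ (hne x hx)).2.1 m hm.2, zero_div]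
    · rw [hsum, if_pos (Finset.mem_insert_self _ _)]
      have h1 : ∑ x ∈ D, ∑ m ∈ insert s S, W (x s) m =
          ∑ x ∈ D, Real.log (slice D s (x s)).card := by
        refine Finset.sum_congr rfl fun x hx => ?_
        rw [Finset.sum_insert hsS, (hW _ (hne x hx)).2.1 s hsS, zero_add,
          (hW _ (hne x hx)).2.2.1]
      rw [h1, hκ]
      ring
    · intro A
      rw [hsum]
      have h1 : ∑ x ∈ D, ∑ m ∈ A, W (x s) m ≤
          ∑ x ∈ D, Real.log (traces A (slice D s (x s))) :=
        Finset.sum_le_sum fun x hx => (hW _ (hne x hx)).2.2.2 A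
      have hT : (0 : ℝ) < traces A D := by exact_mod_cast traces_pos A hD
      split_ifs with hs
      · have h2 : ∀ x ∈ D, Real.log (traces A (slice D s (x s))) -
            Real.log (slice D s (x s)).card + Real.log D.card - Real.log (traces A D) ≤
            (traces A (slice D s (x s)) : ℝ) / (slice D s (x s)).card *
              (D.card / traces A D) - 1 := by
          intro x hx
          have p1 : (0 : ℝ) < traces A (slice D s (x s)) := by
            exact_mod_cast traces_pos A (hne x hx)
          have p2 : (0 : ℝ) < (slice D s (x s)).card := by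
            exact_mod_cast Finset.card_pos.2 (hne x hx)
          have h3 := Real.log_le_sub_one_of_pos
            (show 0 < (traces A (slice D s (x s)) : ℝ) / (slice D s (x s)).card *
              (D.card / traces A D) by positivity)
          rw [Real.log_mul (by positivity) (by positivity), Real.log_div p1.ne' p2.ne',
            Real.log_div hDpos.ne' hT.ne'] at h3
          linarith
        have h4 := Finset.sum_le_sum h2
        simp only [Finset.sum_sub_distrib, Finset.sum_add_distrib, Finset.sum_const,
          nsmul_eq_mul, mul_one] at h4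
        rw [← Finset.sum_mul, sum_div_slice D s (fun a => (traces A (slice D s a) : ℝ))] at h4
        have h5 : (∑ a ∈ D.image (fun x => x s), (traces A (slice D s a) : ℝ)) ≤ traces A D := by
          exact_mod_cast sum_traces_slice_le A D hs
        have h6 : (∑ a ∈ D.image (fun x => x s), (traces A (slice D s a) : ℝ)) *
            ((D.card : ℝ) / traces A D) ≤ D.card := by
          calc _ ≤ (traces A D : ℝ) * ((D.card : ℝ) / traces A D) :=
                mul_le_mul_of_nonneg_right h5 (by positivity)
            _ = D.card := by field_simp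
        have h7 : ∑ x ∈ D, Real.log (traces A (slice D s (x s))) ≤
            ∑ x ∈ D, Real.log (slice D s (x s)).card - D.card * Real.log D.card +
              D.card * Real.log (traces A D) := by linarith
        have h8 : (∑ x ∈ D, ∑ m ∈ A, W (x s) m) / D.card ≤
            (∑ x ∈ D, Real.log (slice D s (x s)).card) / D.card - Real.log D.card +
              Real.log (traces A D) := by
          rw [div_le_iff₀ hDpos]
          have : ((∑ x ∈ D, Real.log (slice D s (x s)).card) / D.card - Real.log D.card +
              Real.log (traces A D)) * D.card =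
              ∑ x ∈ D, Real.log (slice D s (x s)).card - D.card * Real.log D.card +
              D.card * Real.log (traces A D) := by
            field_simp
          rw [this]
          exact h1.trans h7
        rw [hκ]
        linarith
      · rw [add_zero, div_le_iff₀ hDpos]
        refine h1.trans ?_
        have : ∑ x ∈ D, Real.log (traces A (slice D s (x s))) ≤
            ∑ _x ∈ D, Real.log (traces A D) := by
          refine Finset.sum_le_sum fun x hx => ?_
          refine Real.log_le_log (by exact_mod_cast traces_pos A (hne x hx)) ?_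
          exact_mod_cast traces_mono A (slice_subset D s (x s))
        rw [Finset.sum_const, nsmul_eq_mul] at this
        linarith [mul_comm (D.card : ℝ) (Real.log (traces A D))]

end Pool.Agent.H84.Fr
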