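import Mathlib.Order.Irreducible
import Mathlib.Data.Fintype.Powerset
import Pool.Agent.H84.Fr.TraceRank
import Pool.Agent.H84.Fr.Weights

/-!
# Frankl's inequality for finite lattices with few maximal join-irreducible elements

A finite lattice with `r` maximal join-irreducible elements and more than `2 ^ (r (2 r + 1))` elements has a maximal
join-irreducible element below fewer than half of its elements (helper87's theorem, note 3493).
-/

open Finset

open scoped Classical

namespace Pool.Agent.H84.Fr

/-- If `z` is not below `w`, some join-irreducible below `z` is not below `w`. -/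
lemma exists_min {L : Type*} [Lattice L] [Finite L] {z w : L} (h : ¬ z ≤ w) :
    ∃ c : L, SupIrred c ∧ c ≤ z ∧ ¬ c ≤ w := by
  obtain ⟨c, hc⟩ := (Set.toFinite {c : L | c ≤ z ∧ ¬ c ≤ w}).exists_minimal ⟨z, le_rfl, h⟩
  refine ⟨c, ⟨?_, ?_⟩, hc.prop.1, hc.prop.2⟩
  · intro hmin
    exact hc.prop.2 ((hmin inf_le_left).trans inf_le_right)
  · intro b d hbd
    by_contra hne
    push Not at hne
    have hb : b < c := lt_of_le_of_ne (hbd ▸ le_sup_left) hne.1
    have hd : d < c := lt_of_le_of_ne (hbd ▸ le_sup_right) hne.2
    have key : ∀ e : L, e < c → e ≤ w := by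
      intro e he
      by_contra hew
      exact absurd (hc.le_of_le ⟨he.le.trans hc.prop.1, hew⟩ he.le) (not_le_of_gt he)
    exact hc.prop.2 (hbd ▸ sup_le (key b hb) (key d hd))

section core

variable {L : Type*} [Lattice L] [Fintype L] (M : Finset L)

/-- The meets with the members of `M`. -/
def tup (x : L) : {m // m ∈ M} → L := fun m => x ⊓ m

/-- The members of `M` below `x`. -/
noncomputable def below (x : L) : Finset {m // m ∈ M} := univ.filter (fun m => (m : L) ≤ x)

lemma mem_below {x : L} {m : {m // m ∈ M}} : m ∈ below M x ↔ (m : L) ≤ x := by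
  simp [below]

lemma le_of_mem {x a : L} (h : below M a = below M x) {m : {m // m ∈ M}}
    (hm : m ∈ below M x) : (m : L) ≤ a :=
  (mem_below M).1 (h.symm ▸ hm)

lemma tup_injective (hM : ∀ c : L, SupIrred c → ∃ j ∈ M, c ≤ j) :
    Function.Injective (tup M) := by
  have key : ∀ x y : L, tup M x = tup M y → x ≤ y := by
    intro x y h
    by_contra hxy
    obtain ⟨c, hc, hcx, hcy⟩ := exists_min hxy
    obtain ⟨j, hj, hcj⟩ := hM c hc
    have h1 : x ⊓ j = y ⊓ j := congrFun h ⟨j, hj⟩
    exact hcy ((le_inf hcx hcj).trans (h1 ▸ inf_le_left))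
  intro x y h
  exact le_antisymm (key x y h) (key y x h.symm)

/-- The tuples of the elements above exactly the members `T` of `M`. -/
noncomputable def cls (T : Finset {m // m ∈ M}) : Finset ({m // m ∈ M} → L) :=
  (univ.filter (fun x => below M x = T)).image (tup M)

lemma card_cls (hM : ∀ c : L, SupIrred c → ∃ j ∈ M, c ≤ j) (T : Finset {m // m ∈ M}) :
    (cls M T).card = (univ.filter (fun x : L => below M x = T)).card :=
  Finset.card_image_of_injective _ (tup_injective M hM)

lemma cls_nonempty (x : L) : (cls M (below M x)).Nonempty :=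
  ⟨tup M x, Finset.mem_image_of_mem _ (by simp)⟩

/-- Two classes: the restrictions to each other's index sets embed in the lattice. -/
lemma traces_mul_le (x y : L) :
    traces (below M y) (cls M (below M x)) * traces (below M x) (cls M (below M y)) ≤
      Fintype.card L := by
  unfold traces
  rw [← Finset.card_product]
  have : (cls M (below M x)).image (fun f => (fun m : (below M y) => f m)) ×ˢ
      (cls M (below M y)).image (fun f => (fun m : (below M x) => f m)) ⊆
      (univ : Finset L).image (fun z => ((fun m : (below M y) => tup M z m),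
        (fun m : (below M x) => tup M z m))) := by
    rintro ⟨p, q⟩ hpq
    rw [Finset.mem_product, Finset.mem_image, Finset.mem_image] at hpq
    obtain ⟨⟨f, hf, hfp⟩, g, hg, hgq⟩ := hpq
    rw [cls, Finset.mem_image] at hf hg
    obtain ⟨a, ha, rfl⟩ := hf
    obtain ⟨b, hb, rfl⟩ := hg
    simp only [mem_filter, mem_univ, true_and] at ha hb
    rw [Finset.mem_image]
    refine ⟨a ⊓ b, mem_univ _, ?_⟩
    rw [Prod.mk.injEq]
    constructor
    · refine Eq.trans ?_ hfp
      funext m
      have hm : ((m : {m // m ∈ M}) : L) ≤ b := le_of_mem M hb m.2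
      simp only [tup]
      rw [inf_assoc, inf_eq_right.2 hm]
    · refine Eq.trans ?_ hgq
      funext m
      have hm : ((m : {m // m ∈ M}) : L) ≤ a := le_of_mem M ha m.2
      simp only [tup]
      rw [inf_comm a b, inf_assoc, inf_eq_right.2 hm]
  refine (Finset.card_le_card this).trans (Finset.card_image_le.trans ?_)
  simp

/-- On its own index set a class has only one restriction. -/
lemma traces_self_le (x : L) : traces (below M x) (cls M (below M x)) ≤ 1 := by
  unfold traces
  rw [Finset.card_le_one]
  intro p hp q hq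
  rw [Finset.mem_image] at hp hq
  obtain ⟨f, hf, hfp⟩ := hp
  obtain ⟨g, hg, hgq⟩ := hq
  rw [cls, Finset.mem_image] at hf hg
  obtain ⟨a, ha, rfl⟩ := hf
  obtain ⟨b, hb, rfl⟩ := hg
  simp only [mem_filter, mem_univ, true_and] at ha hb
  rw [← hfp, ← hgq]
  funext m
  have h1 : ((m : {m // m ∈ M}) : L) ≤ a := le_of_mem M ha m.2
  have h2 : ((m : {m // m ∈ M}) : L) ≤ b := le_of_mem M hb m.2
  simp only [tup]
  rw [inf_eq_right.2 h1, inf_eq_right.2 h2]

/-- The sum of the reciprocals of the sizes of the classes is at most `2 ^ r`. -/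
lemma sum_inv_le : ∑ x : L, (1 : ℝ) / ((univ.filter (fun y : L => below M y = below M x)).card : ℝ)
    ≤ 2 ^ M.card := by
  have h : ∑ x : L, (1 : ℝ) / ((univ.filter (fun y : L => below M y = below M x)).card : ℝ) =
      ((univ : Finset L).image (below M)).card := by
    rw [← Finset.sum_fiberwise_of_maps_to (g := below M) (t := (univ : Finset L).image (below M))
      (fun x hx => Finset.mem_image_of_mem _ hx)]
    rw [Finset.card_eq_sum_ones, Nat.cast_sum]
    refine Finset.sum_congr rfl fun T hT => ?_
    have h1 : ∑ x ∈ univ.filter (fun x => below M x = T),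
        (1 : ℝ) / ((univ.filter (fun y : L => below M y = below M x)).card : ℝ) =
        ∑ _x ∈ univ.filter (fun x => below M x = T),
        (1 : ℝ) / ((univ.filter (fun y : L => below M y = T)).card : ℝ) := by
      refine Finset.sum_congr rfl fun x hx => ?_
      rw [(Finset.mem_filter.1 hx).2]
    rw [h1, Finset.sum_const, nsmul_eq_mul]
    rw [Finset.mem_image] at hT
    obtain ⟨x, -, rfl⟩ := hT
    have h2 : ((univ.filter (fun y : L => below M y = below M x)).card : ℝ) ≠ 0 := by
      have : 0 < (univ.filter (fun y : L => below M y = below M x)).card :=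
        Finset.card_pos.2 ⟨x, by simp⟩
      exact_mod_cast this.ne'
    rw [mul_one_div_cancel h2]
    simp
  rw [h]
  have h2 : ((univ : Finset L).image (below M)).card ≤ 2 ^ M.card := by
    refine (Finset.card_le_univ _).trans ?_
    rw [Fintype.card_finset, Fintype.card_coe]
  exact_mod_cast h2

/-- If every member of `M` is below at least half of the elements, the lattice is small. -/
theorem card_le_of_all_frequent (hM : ∀ c : L, SupIrred c → ∃ j ∈ M, c ≤ j)
    (h2 : 2 ≤ Fintype.card L)
    (hu : ∀ m ∈ M, Fintype.card L ≤ 2 * (univ.filter (fun x : L => m ≤ x)).card) :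
    Fintype.card L ≤ 2 ^ (M.card * (2 * M.card + 1)) := by
  set N : ℝ := (Fintype.card L : ℝ) with hN
  have hN2 : (2 : ℝ) ≤ N := by rw [hN]; exact_mod_cast h2
  have hN0 : 0 < N := by linarith
  have hc : 0 < Real.log N := Real.log_pos (by linarith)
  have hex : ∀ T : Finset {m // m ∈ M}, ∃ w : {m // m ∈ M} → ℝ, (cls M T).Nonempty →
      (∀ m, 0 ≤ w m) ∧ ∑ m, w m = Real.log (cls M T).card ∧
      ∀ A : Finset {m // m ∈ M}, ∑ m ∈ A, w m ≤ Real.log (traces A (cls M T)) := by
    intro T
    by_cases hT : (cls M T).Nonempty
    · obtain ⟨w, hw1, -, hw3, hw4⟩ := exists_weights univ (cls M T) hT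
        (fun x _ y _ m hm => (hm (mem_univ m)).elim)
      exact ⟨w, fun _ => ⟨hw1, hw3, hw4⟩⟩
    · exact ⟨0, fun h => (hT h).elim⟩
  choose w hw using hex
  set W : L → {m // m ∈ M} → ℝ := fun x m => w (below M x) m with hW
  set B : L → {m // m ∈ M} → ℝ := fun x m => if m ∈ below M x then 1 else 0 with hB
  have hWB : ∀ x y : L, ∑ m, W x m * B y m = ∑ m ∈ below M y, w (below M x) m := by
    intro x y
    simp only [hW, hB, mul_ite, mul_one, mul_zero]
    rw [← Finset.sum_filter]
    congr 1
    ext m
    simp
  have hMeq : ∀ x y : L, ∑ m, (W x m * B y m + W y m * B x m) =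
      ∑ m ∈ below M y, w (below M x) m + ∑ m ∈ below M x, w (below M y) m := by
    intro x y
    rw [Finset.sum_add_distrib, hWB, hWB]
  have hwx : ∀ x : L, _ := fun x => hw (below M x) (cls_nonempty M x)
  set P : Matrix L L ℝ := fun x y =>
    Real.log N - ∑ m, (W x m * B y m + W y m * B x m) with hP
  have hle : ∀ x y : L, ∑ m, (W x m * B y m + W y m * B x m) ≤ Real.log N := by
    intro x y
    rw [hMeq]
    refine (add_le_add ((hwx x).2.2 _) ((hwx y).2.2 _)).trans ?_
    have p1 : (0 : ℝ) < traces (below M y) (cls M (below M x)) := by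
      exact_mod_cast traces_pos _ (cls_nonempty M x)
    have p2 : (0 : ℝ) < traces (below M x) (cls M (below M y)) := by
      exact_mod_cast traces_pos _ (cls_nonempty M y)
    rw [← Real.log_mul p1.ne' p2.ne']
    refine Real.log_le_log (by positivity) ?_
    rw [hN]
    exact_mod_cast traces_mul_le M x y
  have hge : ∀ x y : L, 0 ≤ ∑ m, (W x m * B y m + W y m * B x m) := by
    intro x y
    rw [hMeq]
    exact add_nonneg (Finset.sum_nonneg fun m _ => (hwx x).1 m)
      (Finset.sum_nonneg fun m _ => (hwx y).1 m)
  have hdiag : ∀ x : L, ∑ m, (W x m * B x m + W x m * B x m) = 0 := by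
    intro x
    refine le_antisymm ?_ (hge x x)
    rw [hMeq]
    have h1 : ∑ m ∈ below M x, w (below M x) m ≤ 0 := by
      refine ((hwx x).2.2 _).trans ?_
      have p1 : (0 : ℝ) < traces (below M x) (cls M (below M x)) := by
        exact_mod_cast traces_pos _ (cls_nonempty M x)
      have p2 : (traces (below M x) (cls M (below M x)) : ℝ) ≤ 1 := by
        exact_mod_cast traces_self_le M x
      exact Real.log_nonpos p1.le p2
    linarith
  have hmain := main_ineq (Real.log N) hc W B P (fun x y => rfl)
    (fun x y => by rw [hP]; simp only; linarith [hle x y])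
    (fun x y => by rw [hP]; simp only; linarith [hge x y])
    (fun x => by rw [hP]; simp only; linarith [hdiag x])
  -- the double sum
  have hsum : ∑ x : L, ∑ y : L, P x y =
      N ^ 2 * Real.log N - 2 * ∑ x : L, ∑ m, W x m * (univ.filter (fun y : L => (m : L) ≤ y)).card := by
    have h1 : ∀ x : L, ∑ y : L, ∑ m, W x m * B y m =
        ∑ m, W x m * (univ.filter (fun y : L => (m : L) ≤ y)).card := by
      intro x
      rw [Finset.sum_comm]
      refine Finset.sum_congr rfl fun m _ => ?_
      rw [← Finset.mul_sum]
      congr 1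
      simp only [hB, mem_below]
      rw [Finset.sum_boole]
    have h2 : ∑ x : L, ∑ y : L, ∑ m, W y m * B x m = ∑ x : L, ∑ y : L, ∑ m, W x m * B y m :=
      Finset.sum_comm
    simp only [hP, Finset.sum_sub_distrib, Finset.sum_add_distrib, Finset.sum_const, nsmul_eq_mul,
      Finset.card_univ]
    rw [h2]
    simp only [h1]
    rw [← hN]
    ring
  have hlow : N * ∑ x : L, Real.log ((univ.filter (fun y : L => below M y = below M x)).card : ℝ) ≤
      2 * ∑ x : L, ∑ m, W x m * (univ.filter (fun y : L => (m : L) ≤ y)).card := by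
    rw [Finset.mul_sum, Finset.mul_sum]
    refine Finset.sum_le_sum fun x _ => ?_
    rw [← card_cls M hM, ← (hwx x).2.1, Finset.mul_sum, Finset.mul_sum]
    refine Finset.sum_le_sum fun m _ => ?_
    have h3 : N ≤ 2 * ((univ.filter (fun y : L => (m : L) ≤ y)).card : ℝ) := by
      rw [hN]
      exact_mod_cast hu m m.2
    have h4 := mul_le_mul_of_nonneg_left h3 ((hwx x).1 m)
    simp only [hW]
    linarith
  have hjen : N * (Real.log N - M.card * Real.log 2) ≤
      ∑ x : L, Real.log ((univ.filter (fun y : L => below M y = below M x)).card : ℝ) := by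
    have hx : ∀ x : L, Real.log N - M.card * Real.log 2 -
        Real.log ((univ.filter (fun y : L => below M y = below M x)).card : ℝ) ≤
        N / 2 ^ M.card * (1 / ((univ.filter (fun y : L => below M y = below M x)).card : ℝ)) - 1 := by
      intro x
      have p1 : (0 : ℝ) < ((univ.filter (fun y : L => below M y = below M x)).card : ℝ) := by
        have : 0 < (univ.filter (fun y : L => below M y = below M x)).card :=
          Finset.card_pos.2 ⟨x, by simp⟩
        exact_mod_cast this
      have h5 := Real.log_le_sub_one_of_pos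
        (show 0 < N / 2 ^ M.card *
          (1 / ((univ.filter (fun y : L => below M y = below M x)).card : ℝ)) by positivity)
      rw [Real.log_mul (by positivity) (by positivity), Real.log_div (by positivity) (by positivity),
        Real.log_pow, one_div, Real.log_inv] at h5
      rw [one_div]
      linarith
    have h6 := Finset.sum_le_sum (fun x (_ : x ∈ (univ : Finset L)) => hx x)
    simp only [Finset.sum_sub_distrib, Finset.sum_const, nsmul_eq_mul, mul_one,
      Finset.card_univ] at h6
    rw [← Finset.mul_sum, ← hN] at h6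
    have h7 : N / 2 ^ M.card *
        ∑ x : L, (1 / ((univ.filter (fun y : L => below M y = below M x)).card : ℝ)) ≤ N := by
      calc _ ≤ N / 2 ^ M.card * 2 ^ M.card :=
            mul_le_mul_of_nonneg_left (sum_inv_le M) (by positivity)
        _ = N := by field_simp
    nlinarith
  rw [hsum, Fintype.card_coe, ← hN] at hmain
  have hfin : N ^ 2 * Real.log N ≤
      (2 * M.card + 1) * (N ^ 2 * (M.card * Real.log 2)) := by
    refine hmain.trans ?_
    refine mul_le_mul_of_nonneg_left ?_ (by positivity)
    have h8 := mul_le_mul_of_nonneg_left hjen hN0.le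
    nlinarith
  have hlog : Real.log N ≤ (M.card * (2 * M.card + 1) : ℕ) * Real.log 2 := by
    have h9 : N ^ 2 * Real.log N ≤ N ^ 2 * ((M.card * (2 * M.card + 1) : ℕ) * Real.log 2) := by
      refine hfin.trans (le_of_eq ?_)
      push_cast
      ring
    exact le_of_mul_le_mul_left h9 (by positivity)
  rw [← Real.log_pow] at hlog
  have h10 : N ≤ 2 ^ (M.card * (2 * M.card + 1)) :=
    (Real.log_le_log_iff hN0 (by positivity)).1 hlog
  rw [hN] at h10
  exact_mod_cast h10

end core

/-- A finite lattice with at most `r` maximal join-irreducible elements and more than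
`2 ^ (r (2 r + 1))` elements has a maximal join-irreducible element below fewer than half of its
elements. -/
theorem few_maximal (L : Type*) [Lattice L] [Finite L] (r : ℕ)
    (hr : Nat.card {j : L // Maximal SupIrred j} ≤ r) (hL : 2 ^ (r * (2 * r + 1)) < Nat.card L) :
    ∃ a : L, Maximal SupIrred a ∧ 2 * Nat.card {x : L // a ≤ x} < Nat.card L := by
  have := Fintype.ofFinite L
  by_contra hcon
  push Not at hcon
  set M : Finset L := univ.filter (fun j => Maximal SupIrred j) with hMdef
  have hMr : M.card ≤ r := by
    have : Nat.card {j : L // Maximal SupIrred j} = M.card := by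
      rw [Nat.card_eq_fintype_card, Fintype.card_subtype]
    omega
  have hM : ∀ c : L, SupIrred c → ∃ j ∈ M, c ≤ j := by
    intro c hc
    obtain ⟨j, hcj, hj⟩ := (Set.toFinite {j : L | SupIrred j}).exists_le_maximal hc
    exact ⟨j, by simpa [hMdef] using hj, hcj⟩
  rw [Nat.card_eq_fintype_card] at hL hcon
  have h1 : 1 ≤ 2 ^ (r * (2 * r + 1)) := Nat.one_le_two_pow
  have h2 : 2 ≤ Fintype.card L := by omega
  have h3 := card_le_of_all_frequent M hM h2 (by
    intro m hm
    have h4 := hcon m (by simpa [hMdef] using hm)
    rwa [Nat.card_eq_fintype_card, Fintype.card_subtype] at h4)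
  have h5 : 2 ^ (M.card * (2 * M.card + 1)) ≤ 2 ^ (r * (2 * r + 1)) :=
    Nat.pow_le_pow_right (by norm_num) (by gcongr)
  omega

end Pool.Agent.H84.Fr
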